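import Pool.Agent.Results.MP_465281_an.EuclideanBorel
import Pool.Agent.Y779.RZ.Eu
import Pool.Agent.Y779.RZ.Sq

/-!
# Borel Ruziewicz problem for Euclidean spaces: finitely many isometries suffice

The starting file `EuclideanBorel` shows that a finitely additive measure on the bounded Borel sets
of `ℝ^n`, `n ≥ 3`, with value one on the unit cube, invariant under ALL isometries, is the Lebesgue
measure. Here invariance is only required for a finite set of isometries.
-/

set_option autoImplicit false

open MeasureTheory

namespace Pool.Agent.Results.MP_465281_an.EuclideanFiniteFamilies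

open EuclideanBorel (E cube)
open Pool.Agent.Y779.RZ.Eu (IsInvF)

/-- The isometries of `ℝ^n` onto itself. -/
abbrev Isom (n : ℕ) : Type := E n ≃ᵢ E n

/-- On the Borel subsets of `ℝ^n` the `[0, ∞]`-valued set function `μ` is a finitely additive
measure, invariant under the isometries in `G`, with value `1` on the unit cube.
(Its values on other sets are irrelevant.) -/
structure IsInvariantUnder {n : ℕ} (G : Set (Isom n)) (μ : Set (E n) → ENNReal) : Prop where
  empty : μ ∅ = 0
  add : ∀ A B : Set (E n), MeasurableSet A → MeasurableSet B → Disjoint A B →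
    μ (A ∪ B) = μ A + μ B
  invariant : ∀ g ∈ G, ∀ A : Set (E n), MeasurableSet A → μ (g '' A) = μ A
  total : μ (cube n) = 1

/-- The same properties, required only for bounded Borel subsets of `ℝ^n`. -/
structure IsInvariantOnBoundedUnder {n : ℕ} (G : Set (Isom n)) (μ : Set (E n) → ENNReal) :
    Prop where
  empty : μ ∅ = 0
  add : ∀ A B : Set (E n), MeasurableSet A → MeasurableSet B → Bornology.IsBounded A →
    Bornology.IsBounded B → Disjoint A B → μ (A ∪ B) = μ A + μ B
  invariant : ∀ g ∈ G, ∀ A : Set (E n), MeasurableSet A → Bornology.IsBounded A →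
    μ (g '' A) = μ A
  total : μ (cube n) = 1

/-- the vectors `e_i` and `√2 e_i` -/
def gens (n : ℕ) : Set (E n) :=
  {v | ∃ i : Fin n, v = EuclideanSpace.single i (1 : ℝ) ∨ v = EuclideanSpace.single i (√2)}

theorem gens_finite (n : ℕ) : (gens n).Finite := by
  have : gens n = Set.range (fun i : Fin n => EuclideanSpace.single i (1 : ℝ)) ∪
      Set.range (fun i : Fin n => EuclideanSpace.single i (√2)) := by
    ext v
    constructor
    · rintro ⟨i, rfl | rfl⟩
      · exact Or.inl ⟨i, rfl⟩
      · exact Or.inr ⟨i, rfl⟩
    · rintro (⟨i, rfl⟩ | ⟨i, rfl⟩)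
      · exact ⟨i, Or.inl rfl⟩
      · exact ⟨i, Or.inr rfl⟩
  rw [this]
  exact (Set.finite_range _).union (Set.finite_range _)

theorem gens_dense (n : ℕ) : Dense ((AddSubgroup.closure (gens n) : AddSubgroup (E n)) :
    Set (E n)) := by
  classical
  -- every multiple of a basis vector is in the closure
  have h1 : ∀ (i : Fin n) (t : ℝ), EuclideanSpace.single i t ∈
      (AddSubgroup.closure (gens n)).topologicalClosure := by
    intro i t
    let f : ℝ →+ E n :=
      { toFun := fun t => EuclideanSpace.single i t
        map_zero' := by simp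
        map_add' := fun a b => by
          ext j
          by_cases hj : j = i
          · subst hj; simp
          · simp [hj] }
    have hf : Continuous f := by
      have e : (f : ℝ → E n) = fun t => t • EuclideanSpace.single i (1 : ℝ) := by
        funext t
        show EuclideanSpace.single i t = _
        ext j
        by_cases hj : j = i
        · subst hj; simp
        · simp [hj]
      rw [e]
      fun_prop
    have hd : Dense (AddSubgroup.closure {1, √2} : Set ℝ) := by
      rw [dense_addSubgroupClosure_pair_iff]
      have := irrational_sqrt_two.inv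
      simpa [one_div] using this
    have hle : (AddSubgroup.closure ({1, √2} : Set ℝ)) ≤
        (AddSubgroup.closure (gens n)).comap f := by
      rw [AddSubgroup.closure_le]
      rintro x (rfl | rfl)
      · exact AddSubgroup.subset_closure ⟨i, Or.inl rfl⟩
      · exact AddSubgroup.subset_closure ⟨i, Or.inr rfl⟩
    have h2 : t ∈ closure (AddSubgroup.closure ({1, √2} : Set ℝ) : Set ℝ) := hd t
    have h3 := image_closure_subset_closure_image hf (Set.mem_image_of_mem f h2)
    refine closure_mono ?_ h3
    rintro _ ⟨x, hx, rfl⟩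
    exact hle hx
  intro x
  have h2 : x = ∑ i, EuclideanSpace.single i (x i) := by
    ext j
    simp [Finset.sum_apply]
  have h3 : x ∈ (AddSubgroup.closure (gens n)).topologicalClosure := by
    rw [h2]
    exact sum_mem fun i _ => h1 i _
  exact h3

theorem pre_of_image {n : ℕ} {μ : Set (E n) → ENNReal} {f : E n ≃ᵢ E n}
    (h : ∀ A : Set (E n), MeasurableSet A → μ (f '' A) = μ A) (A : Set (E n))
    (hA : MeasurableSet A) : μ (f ⁻¹' A) = μ A := by
  have hm : MeasurableSet (f ⁻¹' A) := f.continuous.measurable hA
  rw [← h _ hm, Set.image_preimage_eq _ f.surjective]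

theorem invF {n k : ℕ} (g : Fin k → E n ≃ₗᵢ[ℝ] E n) {μ : Set (E n) → ENNReal}
    (h0 : μ ∅ = 0) (hadd : ∀ A B : Set (E n), MeasurableSet A → MeasurableSet B → Disjoint A B →
      μ (A ∪ B) = μ A + μ B)
    (h1 : ∀ (i : Fin k) (A : Set (E n)), MeasurableSet A → μ (g i ⁻¹' A) = μ A)
    (h2 : ∀ v ∈ gens n, ∀ A : Set (E n), MeasurableSet A → μ ((fun x => x + v) ⁻¹' A) = μ A)
    (hc : μ (cube n) = 1) : IsInvF n k g (AddSubgroup.closure (gens n)) μ := by
  refine ⟨h0, hadd, h1, ?_, hc⟩
  intro v hv
  induction hv using AddSubgroup.closure_induction with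
  | mem v hv => exact h2 v hv
  | zero =>
    intro A _
    congr 1
    ext x
    simp
  | add v w _ _ hv hw =>
    intro A hA
    have e : (fun x : E n => x + (v + w)) ⁻¹' A =
        (fun x : E n => x + v) ⁻¹' ((fun x : E n => x + w) ⁻¹' A) := by
      ext x
      show x + (v + w) ∈ A ↔ x + v + w ∈ A
      rw [add_assoc]
    rw [e, hv _ ((measurable_add_const w) hA), hw A hA]
  | neg v _ hv =>
    intro A hA
    have e : A = (fun x : E n => x + v) ⁻¹' ((fun x : E n => x + -v) ⁻¹' A) := by
      ext x
      show x ∈ A ↔ x + v + -v ∈ A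
      rw [add_neg_cancel_right]
    conv_rhs => rw [e]
    rw [hv _ ((measurable_add_const (-v)) hA)]

/-- the set of isometries attached to a family of linear isometries -/
def Gen {n k : ℕ} (g : Fin k → E n ≃ₗᵢ[ℝ] E n) : Set (E n ≃ᵢ E n) :=
  Set.range (fun i => (g i).toIsometryEquiv) ∪ (fun v => IsometryEquiv.addRight v) '' gens n

theorem Gen_finite {n k : ℕ} (g : Fin k → E n ≃ₗᵢ[ℝ] E n) : (Gen g).Finite :=
  (Set.finite_range _).union ((gens_finite n).image _)

theorem invF_of_all {n k : ℕ} (g : Fin k → E n ≃ₗᵢ[ℝ] E n) {H : Set (E n ≃ᵢ E n)}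
    (hH : Gen g ⊆ H) {μ : Set (E n) → ENNReal} (h : IsInvariantUnder H μ) :
    IsInvF n k g (AddSubgroup.closure (gens n)) μ := by
  refine invF g h.empty h.add ?_ ?_ h.total
  · intro i A hA
    exact pre_of_image (f := (g i).toIsometryEquiv)
      (h.invariant _ (hH (Or.inl ⟨i, rfl⟩))) A hA
  · intro v hv A hA
    exact pre_of_image (f := IsometryEquiv.addRight v)
      (h.invariant _ (hH (Or.inr ⟨v, hv, rfl⟩))) A hA

open Classical in
/-- extension by `∞` to the unbounded sets -/
noncomputable def ext {n : ℕ} (μ : Set (E n) → ENNReal) (A : Set (E n)) : ENNReal :=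
  if Bornology.IsBounded A then μ A else ⊤

theorem ext_inv {n : ℕ} {H : Set (E n ≃ᵢ E n)} {μ : Set (E n) → ENNReal}
    (h : IsInvariantOnBoundedUnder H μ) : IsInvariantUnder H (ext μ) := by
  refine ⟨?_, ?_, ?_, ?_⟩
  · rw [ext, if_pos Bornology.isBounded_empty, h.empty]
  · intro A B hA hB hAB
    by_cases h1 : Bornology.IsBounded A
    · by_cases h2 : Bornology.IsBounded B
      · rw [ext, ext, ext, if_pos (h1.union h2), if_pos h1, if_pos h2, h.add A B hA hB h1 h2 hAB]
      · have h3 : ¬ Bornology.IsBounded (A ∪ B) := fun hc => h2 (hc.subset Set.subset_union_right)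
        rw [ext, ext, ext, if_neg h3, if_neg h2, add_top]
    · have h3 : ¬ Bornology.IsBounded (A ∪ B) := fun hc => h1 (hc.subset Set.subset_union_left)
      rw [ext, ext, if_neg h3, if_neg h1, top_add]
  · intro g hg A hA
    by_cases h1 : Bornology.IsBounded A
    · rw [ext, ext, if_pos ((Pool.Agent.H490R3.RZ.image_bdd_iff g A).2 h1), if_pos h1,
        h.invariant g hg A hA h1]
    · rw [ext, ext, if_neg (fun hc => h1 ((Pool.Agent.H490R3.RZ.image_bdd_iff g A).1 hc)),
        if_neg h1]
  · have hb : Bornology.IsBounded (cube n) := Pool.Agent.H490R3.RZ.cube_bdd n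
    rw [ext, if_pos hb, h.total]

/-- Lebesgue measure is the only finitely additive measure on the bounded Borel sets of `ℝ^n` with
value `1` on the unit cube which is invariant under `H`. -/
def UniqueOnBounded {n : ℕ} (H : Set (Isom n)) : Prop :=
  ∀ μ : Set (E n) → ENNReal, IsInvariantOnBoundedUnder H μ →
    ∀ A : Set (E n), MeasurableSet A → Bornology.IsBounded A → μ A = volume A

/-- All finitely additive measures on all the Borel sets of `ℝ^n` with value `1` on the unit cube
which are invariant under `H` agree with Lebesgue measure on the set `A`. -/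
def Forced {n : ℕ} (H : Set (Isom n)) (A : Set (E n)) : Prop :=
  ∀ μ : Set (E n) → ENNReal, IsInvariantUnder H μ → μ A = volume A

/-- **Borel Ruziewicz problem for `ℝ^n`, finitely many isometries.** Let `n ≥ 3`. There is a finite
set `G` of isometries of `ℝ^n` such that for EVERY set `H ⊇ G` of isometries:

(1) a finitely additive measure on the bounded Borel subsets of `ℝ^n` with value `1` on the unit
cube which is invariant under `H` is the Lebesgue measure;
(2) for the measures on all Borel sets which are invariant under `H` the value on a Borel set `A` is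
forced to be the Lebesgue measure of `A` exactly when `A` is bounded or of infinite Lebesgue
measure. -/
theorem result (n : ℕ) (hn : 3 ≤ n) :
    ∃ G : Set (Isom n), G.Finite ∧ ∀ H : Set (Isom n), G ⊆ H →
      UniqueOnBounded H ∧
      ∀ A : Set (E n), MeasurableSet A →
        (Forced H A ↔ (Bornology.IsBounded A ∨ volume A = ⊤)) := by
  obtain ⟨k, g, κ, hg, -⟩ := Pool.Agent.Y779.RZ.gap_of_gap3 Pool.Agent.Y779.RZ.gap3s n hn
  refine ⟨Gen g, Gen_finite g, fun H hH => ?_⟩
  have hD := gens_dense n
  have hp1 : ∀ j : Fin n, EuclideanSpace.single j (1 : ℝ) ∈ AddSubgroup.closure (gens n) :=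
    fun j => AddSubgroup.subset_closure ⟨j, Or.inl rfl⟩
  have key : ∀ μ : Set (E n) → ENNReal, IsInvariantUnder H μ →
      ∀ A : Set (E n), MeasurableSet A → Bornology.IsBounded A → μ A = volume A := by
    intro μ hμ A hA hb
    exact Pool.Agent.Y779.RZ.Eu.main hg (by omega) hD hp1 (invF_of_all g hH hμ) A hA hb
  refine ⟨fun μ hμ A hA hb => ?_, fun A hA => ⟨fun h => ?_, ?_⟩⟩
  · have := key (ext μ) (ext_inv hμ) A hA hb
    rwa [ext, if_pos hb] at this
  · exact ((EuclideanBorel.result n hn).2 A hA).1 fun μ hμ =>
      h μ ⟨hμ.empty, hμ.add, fun g _ => hμ.invariant g, hμ.total⟩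
  · rintro (h1 | h1) μ hμ
    · exact key μ hμ A hA h1
    · rw [h1]
      have hU : A = ⋃ m : ℕ, A ∩ Metric.ball 0 m := by
        rw [← Set.inter_iUnion, Metric.iUnion_ball_nat, Set.inter_univ]
      have hmon : Monotone fun m : ℕ => A ∩ Metric.ball (0 : E n) m := by
        intro a b hab
        exact Set.inter_subset_inter_right _ (Metric.ball_subset_ball (by exact_mod_cast hab))
      have h2 : volume A ≤ μ A := by
        conv_lhs => rw [hU]
        rw [hmon.measure_iUnion]
        refine iSup_le (fun m => ?_)
        have hm : MeasurableSet (A ∩ Metric.ball 0 m) := hA.inter Metric.isOpen_ball.measurableSet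
        rw [← key μ hμ _ hm (Metric.isBounded_ball.subset Set.inter_subset_right)]
        exact (invF_of_all g hH hμ).mono hm hA Set.inter_subset_left
      rw [h1] at h2
      exact top_le_iff.1 h2

end Pool.Agent.Results.MP_465281_an.EuclideanFiniteFamilies
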