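import Pool.Agent.Results.MP_465281_an.BorelRuziewicz
import Pool.Agent.Y779.RZ.Un
import Pool.Agent.Y779.RZ.Sq

/-!
# Borel Ruziewicz problem: finitely many isometries suffice

The starting file `BorelRuziewicz` shows that a finitely additive Borel measure on `S^n`, `n ≥ 2`,
of total mass one which is invariant under ALL isometries is the Lebesgue measure. Here invariance
is only required for a finite family of isometries with a spectral gap, and such families exist.
-/

set_option autoImplicit false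

open MeasureTheory

namespace Pool.Agent.Results.MP_465281_an.FiniteFamilies

open BorelRuziewicz (E Sph img surf)

/-- The isometries of `S^n`: the linear isometries of `ℝ^(n+1)`, that is, `O_(n+1)(ℝ)`. -/
abbrev Iso (n : ℕ) : Type := E n ≃ₗᵢ[ℝ] E n

/-- The image of a vector under an isometry. -/
noncomputable abbrev ap {n : ℕ} (g : Iso n) (x : E n) : E n := g x

/-- Borel subsets of the sphere. -/
abbrev Borel {n : ℕ} (A : Set (Sph n)) : Prop := MeasurableSet A

/-- The area of a subset of the sphere, for Mathlib's surface measure (not normalised). -/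
noncomputable abbrev area {n : ℕ} (A : Set (Sph n)) : ENNReal := surf n A

/-- The integral over the sphere with respect to the surface measure. -/
noncomputable abbrev integ {n : ℕ} (f : Sph n → ℝ) : ℝ := ∫ x, f x ∂(surf n)

/-- The continuous real functions on the sphere. -/
abbrev Fn (n : ℕ) : Type := C(Sph n, ℝ)

/-- The value of a function at a point. -/
abbrev ev {n : ℕ} (ψ : Fn n) (x : Sph n) : ℝ := ψ x

/-- On the Borel subsets of `S^n` the `[0, ∞]`-valued set function `μ` is a finitely additive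
measure of total mass `1` which is invariant under the isometries in `G`. (Its values on other sets
are irrelevant.) -/
structure IsInvariantUnder {n : ℕ} (G : Set (Iso n)) (μ : Set (Sph n) → ENNReal) : Prop where
  empty : μ ∅ = 0
  add : ∀ A B : Set (Sph n), Borel A → Borel B → Disjoint A B → μ (A ∪ B) = μ A + μ B
  invariant : ∀ g ∈ G, ∀ A : Set (Sph n), Borel A → μ (img g A) = μ A
  total : μ Set.univ = 1

/-- The action of a linear isometry on the sphere. -/
noncomputable def act {n : ℕ} (g : Iso n) (x : Sph n) : Sph n := ⟨ap g x.1, by simp [ap]⟩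

/-- `‖ψ ∘ g - ψ‖²` in `L²(S^n)` -/
noncomputable def displacement {n : ℕ} (ψ : Fn n) (g : Iso n) : ℝ :=
  integ fun x => (ev ψ (act g x) - ev ψ x) ^ 2

/-- The finite family `g` of isometries has a spectral gap on the functions of mean zero in
`L²(S^n)` (formulated with continuous functions, which are dense). -/
def SpectralGap {n k : ℕ} (g : Fin k → Iso n) : Prop :=
  ∃ κ : ℝ, 0 < κ ∧ ∀ ψ : Fn n, integ (ev ψ) = 0 →
    κ * integ (fun x => ev ψ x ^ 2) ≤ ∑ i, displacement ψ (g i)

/-- `μ` is the normalised Lebesgue measure on the Borel sets. -/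
def IsLebesgue {n : ℕ} (μ : Set (Sph n) → ENNReal) : Prop :=
  ∀ A : Set (Sph n), Borel A → μ A = area A / area (Set.univ : Set (Sph n))

/-- The surface measure of `S^n`, normalised to total mass `1`. -/
noncomputable def nsurf (n : ℕ) : Measure (Sph n) := (surf n Set.univ)⁻¹ • surf n

/-- `displacement` for the normalised measure -/
noncomputable def displacement' {n : ℕ} (ψ : C(Sph n, ℝ)) (g : Iso n) : ℝ :=
  ∫ x, (ψ (act g x) - ψ x) ^ 2 ∂(nsurf n)

/-- `SpectralGap` for the normalised measure -/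
def SpectralGap' {n k : ℕ} (g : Fin k → Iso n) : Prop :=
  ∃ κ : ℝ, 0 < κ ∧ ∀ ψ : C(Sph n, ℝ), ∫ x, ψ x ∂(nsurf n) = 0 →
    κ * ∫ x, ψ x ^ 2 ∂(nsurf n) ≤ ∑ i, displacement' ψ (g i)

theorem nsurf_const {n : ℕ} (hn : 2 ≤ n) :
    ∃ c : ℝ, 0 < c ∧ ∀ f : Sph n → ℝ, ∫ x, f x ∂(nsurf n) = c * ∫ x, f x ∂(surf n) := by
  have hprob := Pool.Agent.Helper557.Rz.sg_prob (n + 1) (by omega)
  have hu : (nsurf n) Set.univ = 1 := hprob.measure_univ
  have hu2 : (surf n Set.univ)⁻¹ * surf n Set.univ = 1 := hu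
  have h0 : surf n Set.univ ≠ 0 := by
    intro h
    rw [h, mul_zero] at hu2
    exact zero_ne_one hu2
  have ht : surf n Set.univ ≠ ⊤ := by
    intro h
    rw [h, ENNReal.inv_top, zero_mul] at hu2
    exact zero_ne_one hu2
  refine ⟨((surf n Set.univ)⁻¹).toReal, ?_, fun f => ?_⟩
  · exact ENNReal.toReal_pos (ENNReal.inv_ne_zero.2 ht) (ENNReal.inv_ne_top.2 h0)
  · show ∫ x, f x ∂((surf n Set.univ)⁻¹ • surf n) = _
    rw [integral_smul_measure, smul_eq_mul]

theorem gap_iff {n k : ℕ} (hn : 2 ≤ n) (g : Fin k → Iso n) : SpectralGap g ↔ SpectralGap' g := by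
  obtain ⟨c, hc, hcf⟩ := nsurf_const hn
  have hd : ∀ (ψ : C(Sph n, ℝ)) (i : Fin k), displacement' ψ (g i) = c * displacement ψ (g i) :=
    fun ψ i => hcf _
  constructor
  · rintro ⟨κ, hκ, h⟩
    refine ⟨κ, hκ, fun ψ h0 => ?_⟩
    rw [hcf] at h0
    have h1 : ∫ x, ψ x ∂(surf n) = 0 := (mul_eq_zero.1 h0).resolve_left hc.ne'
    have h2 : κ * ∫ x, ψ x ^ 2 ∂(surf n) ≤ ∑ i, displacement ψ (g i) := h ψ h1
    rw [Finset.sum_congr rfl fun i _ => hd ψ i, ← Finset.mul_sum, hcf]
    calc κ * (c * ∫ x, ψ x ^ 2 ∂(surf n)) = c * (κ * ∫ x, ψ x ^ 2 ∂(surf n)) := by ring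
      _ ≤ _ := mul_le_mul_of_nonneg_left h2 hc.le
  · rintro ⟨κ, hκ, h⟩
    refine ⟨κ, hκ, fun ψ h0 => ?_⟩
    have h0' : ∫ x, ψ x ∂(surf n) = 0 := h0
    have h1 : ∫ x, ψ x ∂(nsurf n) = 0 := by rw [hcf, h0', mul_zero]
    have h2 := h ψ h1
    rw [Finset.sum_congr rfl fun i _ => hd ψ i, ← Finset.mul_sum, hcf] at h2
    have h3 : c * (κ * ∫ x, ψ x ^ 2 ∂(surf n)) ≤ c * ∑ i, displacement ψ (g i) := by
      calc c * (κ * ∫ x, ψ x ^ 2 ∂(surf n)) = κ * (c * ∫ x, ψ x ^ 2 ∂(surf n)) := by ring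
        _ ≤ _ := h2
    exact le_of_mul_le_mul_left h3 hc

theorem sgd_of_gap {n k : ℕ} (hn : 2 ≤ n) (g : Fin k → E n ≃ₗᵢ[ℝ] E n) (h : SpectralGap g) :
    ∃ κ, Pool.Agent.Helper557.Rz.SGD (n + 1) k g κ := by
  obtain ⟨κ, hκ, hgap⟩ := (gap_iff hn g).1 h
  have hprob := Pool.Agent.Helper557.Rz.sg_prob (n + 1) (by omega)
  refine ⟨κ, hκ, fun ψ => ?_⟩
  set c : ℝ := ∫ x, ψ x ∂(Pool.Agent.Helper557.Rz.sg (n + 1)) with hc
  have hi : Integrable (fun x => ψ x) (Pool.Agent.Helper557.Rz.sg (n + 1)) :=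
    ψ.continuous.integrable_of_hasCompactSupport (HasCompactSupport.of_compactSpace _)
  have hi2 : Integrable (fun x => ψ x ^ 2) (Pool.Agent.Helper557.Rz.sg (n + 1)) :=
    (ψ.continuous.pow 2).integrable_of_hasCompactSupport (HasCompactSupport.of_compactSpace _)
  let φ : C(Sph n, ℝ) := ψ - ContinuousMap.const _ c
  have hφ : ∀ x, φ x = ψ x - c := fun _ => rfl
  have h1 := hgap φ (by
    show ∫ x, (ψ x - c) ∂(Pool.Agent.Helper557.Rz.sg (n + 1)) = 0
    rw [integral_sub hi (integrable_const c), integral_const, ← hc]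
    simp)
  have h2 : ∫ x, φ x ^ 2 ∂(nsurf n) =
      ∫ x, ψ x ^ 2 ∂(Pool.Agent.Helper557.Rz.sg (n + 1)) - c ^ 2 := by
    have e : ∀ x, φ x ^ 2 = (ψ x ^ 2 - (2 * c) * ψ x) + c ^ 2 := by
      intro x; rw [hφ]; ring
    have e2 : ∫ x, ((ψ x ^ 2 - (2 * c) * ψ x) + c ^ 2) ∂(Pool.Agent.Helper557.Rz.sg (n + 1)) =
        (∫ x, ψ x ^ 2 ∂(Pool.Agent.Helper557.Rz.sg (n + 1)) - (2 * c) * c) + c ^ 2 := by
      rw [integral_add (f := fun x => ψ x ^ 2 - (2 * c) * ψ x) (g := fun _ => c ^ 2)
        (hi2.sub (hi.const_mul _)) (integrable_const _),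
        integral_sub (f := fun x => ψ x ^ 2) (g := fun x => (2 * c) * ψ x) hi2 (hi.const_mul _),
        integral_const_mul, integral_const, ← hc]
      simp
    calc ∫ x, φ x ^ 2 ∂(nsurf n)
        = ∫ x, ((ψ x ^ 2 - (2 * c) * ψ x) + c ^ 2) ∂(Pool.Agent.Helper557.Rz.sg (n + 1)) :=
          integral_congr_ae (Filter.Eventually.of_forall fun x => e x)
      _ = _ := by rw [e2]; ring
  have h3 : ∀ i, displacement' φ (g i) =
      ∫ x, (ψ (Pool.Agent.Helper557.Rz.rot (g i) x) - ψ x) ^ 2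
        ∂(Pool.Agent.Helper557.Rz.sg (n + 1)) := by
    intro i
    refine integral_congr_ae (Filter.Eventually.of_forall fun x => ?_)
    show ((ψ (Pool.Agent.Helper557.Rz.rot (g i) x) - c) - (ψ x - c)) ^ 2 = _
    ring
  rw [Finset.sum_congr rfl (fun i _ => h3 i), h2] at h1
  exact h1

theorem gap_of_sgd {n k : ℕ} (hn : 2 ≤ n) (g : Fin k → E n ≃ₗᵢ[ℝ] E n) {κ : ℝ}
    (h : Pool.Agent.Helper557.Rz.SGD (n + 1) k g κ) : SpectralGap g := by
  obtain ⟨hκ, hgap⟩ := h
  refine (gap_iff hn g).2 ⟨κ, hκ, fun ψ h0 => ?_⟩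
  have h1 := hgap ψ
  have h2 : ∫ x, ψ x ∂(Pool.Agent.Helper557.Rz.sg (n + 1)) = 0 := h0
  rw [h2, zero_pow (by norm_num), sub_zero] at h1
  exact h1

/-- A finitely additive Borel probability invariant under a finite family with a spectral gap is the
Lebesgue measure. -/
theorem unique_of_gap {n k : ℕ} (hn : 2 ≤ n) (g : Fin k → E n ≃ₗᵢ[ℝ] E n) (h : SpectralGap g)
    (μ : Set (Sph n) → ENNReal) : IsInvariantUnder (Set.range g) μ ↔ IsLebesgue μ := by
  constructor
  · intro hμ
    obtain ⟨κ, hκ⟩ := sgd_of_gap hn g h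
    exact Pool.Agent.Y779.RZ.main (n + 1) k (by omega) g κ hκ μ hμ.empty hμ.add
      (fun i => hμ.invariant (g i) ⟨i, rfl⟩) hμ.total
  · intro hμ
    obtain ⟨h1, h2, h3, h4⟩ := (BorelRuziewicz.result n hn μ).2 hμ
    exact ⟨h1, h2, fun g _ => h3 g, h4⟩

/-- The normalised Lebesgue measure is the only finitely additive measure of total mass `1` on the
Borel sets of `S^n` which is invariant under the isometries in `H`. -/
def UniqueUnder {n : ℕ} (H : Set (Iso n)) : Prop :=
  ∀ μ : Set (Sph n) → ENNReal, IsInvariantUnder H μ ↔ IsLebesgue μ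

/-- Every member of `G` is the square of an isometry (hence a rotation). -/
def AllSquares {n : ℕ} (G : Set (Iso n)) : Prop :=
  ∀ g ∈ G, ∃ h : Iso n, ∀ x : E n, ap g x = ap h (ap h x)

/-- The `i`-th coordinate of a vector of `ℝ³`. -/
noncomputable abbrev coord (x : E 2) (i : Fin 3) : ℝ := x i

/-- `g` is the rotation of `ℝ³` by the angle `arccos (-3/5)` about the `i`-th coordinate axis
(indices modulo 3). -/
def IsAxisRotation (i : Fin 3) (g : Iso 2) : Prop :=
  ∀ x : E 2, coord (ap g x) i = coord x i ∧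
    coord (ap g x) (i + 1) = -(3 / 5) * coord x (i + 1) - 4 / 5 * coord x (i + 2) ∧
    coord (ap g x) (i + 2) = 4 / 5 * coord x (i + 1) - 3 / 5 * coord x (i + 2)

theorem inv_of_inv {n : ℕ} {μ : Set (Sph n) → ENNReal} {g h : E n ≃ₗᵢ[ℝ] E n}
    (hgh : ∀ x, g (h x) = x) (hhg : ∀ x, h (g x) = x)
    (hg : ∀ A : Set (Sph n), MeasurableSet A → μ (img g A) = μ A) (A : Set (Sph n))
    (hA : MeasurableSet A) : μ (img h A) = μ A := by
  have e : img h A = Pool.Agent.Helper557.Rz.rot g ⁻¹' A := by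
    ext y
    constructor
    · rintro ⟨x, hx, hy⟩
      have : Pool.Agent.Helper557.Rz.rot g y = x := by
        apply Subtype.ext
        show g (y : E n) = x
        rw [hy, hgh]
      show Pool.Agent.Helper557.Rz.rot g y ∈ A
      rw [this]
      exact hx
    · intro hy
      refine ⟨Pool.Agent.Helper557.Rz.rot g y, hy, ?_⟩
      show (y : E n) = h (g (y : E n))
      rw [hhg]
  have hm : MeasurableSet (Pool.Agent.Helper557.Rz.rot g ⁻¹' A) :=
    (Pool.Agent.Helper557.Rz.rot_continuous g).measurable hA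
  rw [e, ← hg _ hm]
  congr 1
  exact Pool.Agent.Y779.RZ.img_pre g A

/-- On the two-dimensional sphere three explicit rotations suffice. -/
theorem three_rotations (μ : Set (Sph 2) → ENNReal) :
    IsInvariantUnder {g | ∃ i, IsAxisRotation i g} μ ↔ IsLebesgue μ := by
  constructor
  · intro hμ
    obtain ⟨R, hR, κ, hκ⟩ := Pool.Agent.Y779.RZ.gap3
    have h0 : ∀ A : Set (Sph 2), MeasurableSet A →
        μ (img (R (Pool.Agent.Helper557.Rz.ua 0)) A) = μ A :=
      hμ.invariant _ ⟨0, fun x => Pool.Agent.Helper557.Rz.er_R0 R hR x⟩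
    have h1 : ∀ A : Set (Sph 2), MeasurableSet A →
        μ (img (R (Pool.Agent.Helper557.Rz.ua 1)) A) = μ A :=
      hμ.invariant _ ⟨1, fun x => Pool.Agent.Y779.RZ.R1 R hR x⟩
    have h2 : ∀ A : Set (Sph 2), MeasurableSet A →
        μ (img (R (Pool.Agent.Helper557.Rz.ua 2)) A) = μ A :=
      hμ.invariant _ ⟨2, fun x => by
        obtain ⟨a, b, c⟩ := Pool.Agent.Helper557.Rz.er_R2 R hR x
        exact ⟨c, a, b⟩⟩
    have h3 := inv_of_inv (fun x => (Pool.Agent.Y779.RZ.inv03 R hR x).1)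
      (fun x => (Pool.Agent.Y779.RZ.inv03 R hR x).2) h0
    have h4 := inv_of_inv (fun x => (Pool.Agent.Y779.RZ.inv14 R hR x).1)
      (fun x => (Pool.Agent.Y779.RZ.inv14 R hR x).2) h1
    have h5 := inv_of_inv (fun x => (Pool.Agent.Y779.RZ.inv25 R hR x).1)
      (fun x => (Pool.Agent.Y779.RZ.inv25 R hR x).2) h2
    refine Pool.Agent.Y779.RZ.main 3 6 (by norm_num) _ κ hκ μ hμ.empty hμ.add ?_ hμ.total
    intro a
    fin_cases a
    · exact h0
    · exact h1
    · exact h2
    · exact h3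
    · exact h4
    · exact h5
  · intro hμ
    obtain ⟨h1, h2, h3, h4⟩ := (BorelRuziewicz.result 2 le_rfl μ).2 hμ
    exact ⟨h1, h2, fun g _ => h3 g, h4⟩

/-- **Borel Ruziewicz problem for finitely many isometries.** Let `n ≥ 2`.

(1) If a finite family of isometries of `S^n` has a spectral gap, then every finitely additive
measure of total mass one on the Borel sets of `S^n` which is invariant under the members of the
family is the normalised Lebesgue measure.
(2) There is a finite set `G` of isometries, all of them squares of isometries (so rotations), such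
that for EVERY set `H ⊇ G` of isometries the Lebesgue measure is the only finitely additive measure
of total mass one on the Borel sets which is invariant under `H`.
(3) For `n = 2` one can take the three rotations by the angle `arccos (-3/5)` about the coordinate
axes.
(4) In particular (`H` = all isometries) the answer to Q1. -/
theorem result :
    (∀ n : ℕ, 2 ≤ n → ∀ (k : ℕ) (g : Fin k → Iso n), SpectralGap g → UniqueUnder (Set.range g)) ∧
    (∀ n : ℕ, 2 ≤ n → ∃ G : Set (Iso n), G.Finite ∧ AllSquares G ∧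
      ∀ H : Set (Iso n), G ⊆ H → UniqueUnder H) ∧
    UniqueUnder {g : Iso 2 | ∃ i, IsAxisRotation i g} ∧
    (∀ n : ℕ, 2 ≤ n → UniqueUnder (Set.univ : Set (Iso n))) := by
  have key : ∀ n : ℕ, 2 ≤ n → ∃ G : Set (Iso n), G.Finite ∧ AllSquares G ∧
      ∀ H : Set (Iso n), G ⊆ H → UniqueUnder H := by
    intro n hn
    obtain ⟨k, g, κ, hg, hsq⟩ :=
      Pool.Agent.Y779.RZ.gap_of_gap3 Pool.Agent.Y779.RZ.gap3s (n + 1) (by omega)
    refine ⟨Set.range g, Set.finite_range g, ?_, ?_⟩
    · rintro _ ⟨i, rfl⟩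
      obtain ⟨h, hh⟩ := hsq i
      exact ⟨h, fun x => by rw [hh]; rfl⟩
    · intro H hH μ
      constructor
      · intro hμ
        exact (unique_of_gap hn g (gap_of_sgd hn g hg) μ).1
          ⟨hμ.empty, hμ.add, fun f hf => hμ.invariant f (hH hf), hμ.total⟩
      · intro hμ
        obtain ⟨h1, h2, h3, h4⟩ := (BorelRuziewicz.result n hn μ).2 hμ
        exact ⟨h1, h2, fun g _ => h3 g, h4⟩
  refine ⟨fun n hn k g hg μ => unique_of_gap hn g hg μ, key, three_rotations, fun n hn μ => ?_⟩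
  obtain ⟨G, -, -, hG⟩ := key n hn
  exact hG Set.univ (Set.subset_univ G) μ

end Pool.Agent.Results.MP_465281_an.FiniteFamilies
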